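import Pool.Agent.X312.FC.Laws

/-!
# A gap law for higher extensions of mixed Galois representations by the cohomology of `X ^ n`

Let `k` be a number field, `ℓ` a prime, `V` **any** object of the category of the mixed and
potentially semistable `ℓ`-adic representations of the problem, and let `X` be **any** smooth
projective variety over `k`. Fix an integer `w` and `ν ≥ 2`. For a smooth projective variety `Z`
over `k` let `T(Z)` be the sum over all `i` and `j` with `i - 2 j = w` of the spaces

`Ext ^ ν (V, H^i(Z, ℚ_ℓ)(j))`,

and let `Mot(Z)` be the subspace of `⊕_j H^(2 j)(Z, ℚ_ℓ(j))` generated by the motivated cycles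
over `k`. Let `b` be the sum of the Betti numbers of `X`. For all `m ≥ 1`: `T(X ^ m) = 0` **or for
all** `n ≥ 1`

`dim T(X ^ n) ≥ (1 - 4 (m + 3) b ^ (m + 5) log (n + 1) / n) dim Mot(X ^ n)`

(the dimension may be infinite). Nothing is assumed on `X`. The conjecture Q1 says that `T(X ^ m)
= 0`. So one nonzero extension class of degree `ν ≥ 2` of `V` by the cohomology of one power of
`X` gives almost as many independent extension classes of `V` by the cohomology of `X ^ n` as
there are independent motivated cycles on `X ^ n`. By duality the same is true for the spaces `Ext
^ ν (H^i(Z, ℚ_ℓ)(j), V)`.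

The cohomology groups of smooth projective varieties are pure and potentially semistable, the
motivated correspondences between `Z` and `Z'` act on `T(Z)`, and the pairing on motivated cycles
is nondegenerate by the Hodge index theorem (André).

The proof. Let `P = X ^ m` with `T(P) ≠ 0`. One takes an idempotent correspondence `g` in `Mot(P ×
P)` of minimal rank with `g T(P) ≠ 0` and an element `z ≠ 0` of `g T(P)`. A correspondence `x`
with `x z = 0` has a nilpotent compression `g x g`, so the trace of `g x` vanishes; therefore `dim
T(Z)` is at least the rank of the trace form `(u, v) ↦ tr (g v u)` on the correspondences between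
`P` and `Z`, and for `Z = X ^ n` this rank is compared with `dim Mot(X ^ n)` by the log-convexity
of the sequence of these dimensions and by the symmetric group.
-/

set_option autoImplicit false

open CategoryTheory AlgebraicGeometry

universe u v w

namespace Pool.Agent.Results.MP_5968e7_ag.GapLaw

open Pool.Agent.H914 VarClass Obj WeilCohomology
open Pool.Agent.X312.FC (CorrData)
open Pool.Agent.X312.FM (Family IsRingFamily IsNondeg dimOn gapBound)
open Pool.Agent.X312.FK (DimAtLeast)
open Pool.Agent.Y133.Half (pw)

variable {k : Type u} [Field k] {𝒱 : VarClass k} {ops : CycleOps 𝒱}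
  {W : WeilCohomology.{u, v} ops}

/-- The sum of the Betti numbers of `X`. -/
noncomputable def totalBetti (W : WeilCohomology.{u, v} ops) (X : 𝒱.Obj) : ℕ :=
  Module.finrank W.K (W.H X)

/-- **The gap law for functors on correspondences.** In the intended use `C` is the family of the spaces
generated by the motivated cycles over the number field, and `T.M Z` is the sum of the spaces
`Ext ^ ν (V, H^i(Z, ℚ_ℓ)(j))` with `i - 2 j = w`. Here `dimOn C Z` is the dimension of `C Z`, and `pw X m`
is the product of `m + 1` copies of `X`. -/
theorem result (C : Family W) (hC : IsRingFamily C) (T : CorrData W) (hT : T.IsFunctor C)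
    (X : 𝒱.Obj) (hX : ∀ n, IsNondeg C (pw X n)) (m : ℕ) :
    (∀ x : T.M (pw X m), x = 0) ∨
    ∀ n : ℕ, DimAtLeast W.K (T.M (pw X n))
      (gapBound (totalBetti W X) (dimOn C (pw X n)) m n) :=
  Pool.Agent.X312.FC.zero_law hC hT X hX m

end Pool.Agent.Results.MP_5968e7_ag.GapLaw
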