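import Pool.Agent.X264.EX.Main

/-!
# The cohomological dimension of mixed potentially semistable Galois representations
-/

set_option autoImplicit false

open CategoryTheory Pool.Agent.X264.EX

namespace Pool.Agent.Results.MP_5968e7_ag.OneFieldSimpleCoefficients

universe t v u

/-- **One field and simple coefficients.** For the abelian categories `C_k` of mixed potentially
semistable `ℓ`-adic representations of number fields `k` (`ℓ` fixed):
(1) for every `n`, `Ext^n` vanishes for all objects of `C_k` if and only if it vanishes for all
objects of `C_{k'}`, for any two number fields `k`, `k'`; so the cohomological dimension of `C_k`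
does not depend on `k`.
(2) `Ext^n(V, W) = 0` for all number fields `k`, all objects `V`, `W` of `C_k` and all `n ≥ 2` if
and only if, for one number field `k₀` (for example `ℚ`), `Ext^2(1, W) = 0` in `C_{k₀}` for all
simple `W` which are pure of a weight `m ≤ 0`. -/
theorem result {K : Type t} [Preorder K] (hK : ∀ k k' : K, ∃ L, k ≤ L ∧ k' ≤ L)
    (T : Family.{t, v, u} K) (hT : T.IsMixed) :
    (∀ (k k' : K) (n : ℕ), T.Vanish k n ↔ T.Vanish k' n) ∧
    ∀ k₀ : K, (∀ (k : K) (n : ℕ), 2 ≤ n → T.Vanish k n) ↔ T.SimpleVanish k₀ :=
  ⟨Family.vanish_iff hT hK, Family.all_iff hT hK⟩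

end Pool.Agent.Results.MP_5968e7_ag.OneFieldSimpleCoefficients
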