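import Pool.Agent.X290.Reg.Ex
import Pool.Agent.X290.Reg.Two
/-!
# Restriction to inertia is fully faithful for representations unramified outside `p`

Let `p` be a prime such that `ℚ(ζ_p)` has no Galois extension of `p`-power degree, other than itself,
which is unramified at all finite primes (for instance `p = 2, 3, 5, 7`). Let `R`, `S` be continuous
representations of `G_ℚ` over a Noetherian local ring `A` of residue characteristic `p`, unramified
outside `p` and residually sums of characters, `L` a field over `A`, and `I` an inertia group at `p`.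
Every `L`-linear map which commutes with the action of `I` commutes with the action of `G_ℚ`; every
subspace stable under `I` is stable under `G_ℚ`; an extension of such representations which splits on
`I` splits on `G_ℚ`; characteristic polynomials which agree on `I` agree on `G_ℚ`.
-/

set_option autoImplicit false

open NumberField Matrix IsLocalRing Polynomial

namespace Pool.Agent.Results.MP_5968e7_ag.RestrictionToInertia

/-- The absolute Galois group of `ℚ`. -/
abbrev G : Type := Gal(AlgebraicClosure ℚ/ℚ)

/-- The ring of all algebraic integers. -/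
abbrev Z : Type := 𝓞 (AlgebraicClosure ℚ)

/-- If `K` is a number field generated by the `p`-th roots of unity, and `L/K` is a Galois extension
of degree a power of `p` which is unramified at all maximal ideals, then `L` has degree `1` over
`K`. -/
def NoUnramified (p : ℕ) : Prop :=
  ∀ (K L : Type) [Field K] [NumberField K] [IsCyclotomicExtension {p} ℚ K] [Field L]
    [NumberField L] [Algebra K L] [IsGalois K L],
    (∀ (Q : Ideal (𝓞 L)) [Q.IsMaximal], Algebra.IsUnramifiedAt (𝓞 K) Q) →
      ∀ k : ℕ, Module.finrank K L = p ^ k → k = 0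

/-- The conditions on the ring of coefficients. -/
def Coefficients (p : ℕ) (A : Type) [CommRing A] [IsLocalRing A] [TopologicalSpace A] : Prop :=
  IsNoetherianRing A ∧ IsAdic (maximalIdeal A) ∧ (p : A) ∈ maximalIdeal A

variable {A : Type} [CommRing A] {m n : ℕ}

/-- The inertia group at the prime ideal `P` of the ring of all algebraic integers. -/
def Inertia (P : Ideal Z) : Set G := {τ | ∀ x : Z, τ • x - x ∈ P}

/-- There are characters `χ 1, ..., χ m` with values in the extension `k` of the residue field such
that the characteristic polynomial of the reduction of `R g` is the product of the `X - χ i g`, for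
all `g`. -/
def ResiduallyCharacters [IsLocalRing A] (k : Type) [Field k] [Algebra (ResidueField A) k]
    (R : G →* GL (Fin m) A) : Prop :=
  ∃ χ : Fin m → (G →* kˣ), ∀ g,
    (((R g : Matrix (Fin m) (Fin m) A).map (residue A)).map
      (algebraMap (ResidueField A) k)).charpoly = ∏ i, (X - C ((χ i g : kˣ) : k))

/-- `R` is continuous, unramified at all primes that do not lie above `p`, and residually a sum of
characters. -/
def Representation [IsLocalRing A] [TopologicalSpace A] (p : ℕ) (k : Type) [Field k]
    [Algebra (ResidueField A) k] (R : G →* GL (Fin m) A) : Prop :=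
  Continuous R ∧
  (∀ P : Ideal Z, P.IsMaximal → (p : Z) ∉ P → ∀ τ ∈ Inertia P, R τ = 1) ∧ ResiduallyCharacters k R

/-- `R` and `S` have the same characteristic polynomials on `T`. -/
def SameCharpolys (R : G →* GL (Fin m) A) (S : G →* GL (Fin n) A) (T : Set G) : Prop :=
  ∀ g ∈ T, (R g : Matrix (Fin m) (Fin m) A).charpoly = (S g : Matrix (Fin n) (Fin n) A).charpoly

/-- The matrix `C` over `L` commutes with the action of the elements of `T`. -/
def Intertwines (R : G →* GL (Fin m) A) (S : G →* GL (Fin n) A) {L : Type} [Field L]
    [Algebra A L] (C : Matrix (Fin n) (Fin m) L) (T : Set G) : Prop :=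
  ∀ g ∈ T, C * (R g : Matrix (Fin m) (Fin m) A).map (algebraMap A L) =
    (S g : Matrix (Fin n) (Fin n) A).map (algebraMap A L) * C

/-- The subspace `W` of `L ^ m` is stable under the elements of `T`. -/
def Stable (R : G →* GL (Fin m) A) {L : Type} [Field L] [Algebra A L]
    (W : Submodule L (Fin m → L)) (T : Set G) : Prop :=
  ∀ g ∈ T, ∀ w ∈ W, (R g : Matrix (Fin m) (Fin m) A).map (algebraMap A L) *ᵥ w ∈ W

/-- The stable subspace `W` has a complement which is stable under `T`: the extension of `L ^ m / W`
by `W` splits on `T`. -/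
def Splits (R : G →* GL (Fin m) A) {L : Type} [Field L] [Algebra A L]
    (W : Submodule L (Fin m → L)) (T : Set G) : Prop :=
  Stable R W T ∧ ∃ W' : Submodule L (Fin m → L), IsCompl W W' ∧ Stable R W' T

/-- What holds on `T` holds on `T'`: equality of the characteristic polynomials, compatibility of
linear maps with the action, stability of subspaces, splitting of extensions. -/
def Transfer (R : G →* GL (Fin m) A) (S : G →* GL (Fin n) A) (T T' : Set G) : Prop :=
  (SameCharpolys R S T → SameCharpolys R S T') ∧
  ∀ (L : Type) [Field L] [Algebra A L],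
    (∀ C : Matrix (Fin n) (Fin m) L, Intertwines R S C T → Intertwines R S C T') ∧
    ∀ W : Submodule L (Fin m → L), (Stable R W T → Stable R W T') ∧ (Splits R W T → Splits R W T')

omit [CommRing A] in
/-- The theorem. -/
theorem result :
    (∀ p : ℕ, p.Prime → NoUnramified p →
      ∀ (A : Type) [CommRing A] [IsLocalRing A] [TopologicalSpace A], Coefficients p A →
      ∀ (k : Type) [Field k] [Algebra (ResidueField A) k] (m n : ℕ) (R : G →* GL (Fin m) A)
        (S : G →* GL (Fin n) A), Representation p k R → Representation p k S →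
      ∀ P : Ideal Z, P.IsMaximal → (p : Z) ∈ P → Transfer R S (Inertia P) Set.univ) ∧
    NoUnramified 2 ∧ NoUnramified 3 ∧ NoUnramified 5 ∧ NoUnramified 7 := by
  refine ⟨?_, Pool.Agent.X290.Reg.noUnr2, Pool.Agent.X290.Reg.noUnr3, Pool.Agent.X290.Reg.noUnr5,
    Pool.Agent.X290.Reg.noUnr7⟩
  rintro p hp hNU A _ _ _ ⟨_, hA, hpA⟩ k _ _ m n R S ⟨hR, hur, χ, hχ⟩ ⟨hS, hur2, ψ, hψ⟩ P hP hpP
  have hpf : Fact p.Prime := ⟨hp⟩
  have key : ∀ g : G, ∃ h ∈ Inertia P, R h = R g ∧ S h = S g := fun g =>
    Pool.Agent.X290.Reg.two_main2 hNU hA hpA R S hR hur hS hur2 k χ ψ hχ hψ hP hpP g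
  have hst : ∀ (L : Type) [Field L] [Algebra A L] (W : Submodule L (Fin m → L)),
      Stable R W (Inertia P) → Stable R W Set.univ := by
    intro L _ _ W h1 g _
    obtain ⟨d, hd, e1, -⟩ := key g
    rw [← e1]
    exact h1 d hd
  refine ⟨fun h1 g _ => ?_, fun L _ _ => ⟨fun C h1 g _ => ?_, fun W => ⟨hst L W, ?_⟩⟩⟩
  · obtain ⟨d, hd, e1, e2⟩ := key g
    rw [← e1, ← e2]
    exact h1 d hd
  · obtain ⟨d, hd, e1, e2⟩ := key g
    rw [← e1, ← e2]
    exact h1 d hd
  · rintro ⟨h1, W', hc, h2⟩
    exact ⟨hst L W h1, W', hc, hst L W' h2⟩

end Pool.Agent.Results.MP_5968e7_ag.RestrictionToInertia
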